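import Pool.Agent.Work.MP_b5407d_lp.Interface

set_option autoImplicit false
open MeasureTheory Real Filter Topology

namespace Pool.Agent.Work.LPBM.helper68

theorem eq_of_vol {n : ℕ} {A B : Set (E n)} (hAB : A ⊆ B) (hA : IsClosed A) (hB : Convex ℝ B)
    (hBi : (interior B).Nonempty) (hfin : volume B ≠ ⊤)
    (h : (volume B).toReal ≤ (volume A).toReal) : A = B := by
  refine Set.Subset.antisymm hAB ?_
  intro x hx
  by_contra hxA
  have h1 : x ∈ closure (interior B) := by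
    rw [hB.closure_interior_eq_closure_of_nonempty_interior hBi]
    exact subset_closure hx
  have hopen : IsOpen (Aᶜ ∩ interior B) := hA.isOpen_compl.inter isOpen_interior
  have hne : (Aᶜ ∩ interior B).Nonempty := mem_closure_iff.1 h1 _ hA.isOpen_compl hxA
  have hpos : 0 < volume (Aᶜ ∩ interior B) := hopen.measure_pos volume hne
  have hle : volume (Aᶜ ∩ interior B) ≤ volume (B \ A) :=
    measure_mono (fun y hy => ⟨interior_subset hy.2, hy.1⟩)
  have hAf : volume A ≠ ⊤ := ne_top_of_le_ne_top hfin (measure_mono hAB)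
  have h2 : volume (B \ A) = volume B - volume A :=
    measure_sdiff hAB hA.measurableSet.nullMeasurableSet hAf
  have h3 : volume B ≤ volume A := (ENNReal.toReal_le_toReal hfin hAf).1 h
  rw [h2, tsub_eq_zero_of_le h3] at hle
  exact absurd hpos (not_lt.2 hle)

theorem mp_self {p t a : ℝ} (hp : 0 < p) (ha : 0 < a) : mp p t a a = a := by
  unfold mp
  have h : (1 - t) * a ^ p + t * a ^ p = a ^ p := by ring
  rw [h, ← Real.rpow_mul ha.le, mul_one_div_cancel hp.ne', Real.rpow_one]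

theorem mp_lt {p0 p t a b : ℝ} (h0 : 0 < p0) (hp : p0 < p) (ht0 : 0 < t) (ht1 : t < 1)
    (ha : 0 < a) (hb : 0 < b) (hab : a ≠ b) : mp p0 t a b < mp p t a b := by
  have hp0 : 0 < p := h0.trans hp
  have hq : 1 < p / p0 := (one_lt_div h0).2 hp
  have hx : 0 < a ^ p0 := Real.rpow_pos_of_pos ha _
  have hy : 0 < b ^ p0 := Real.rpow_pos_of_pos hb _
  have hxy : a ^ p0 ≠ b ^ p0 := fun h => hab
    (Real.rpow_left_injOn h0.ne' (show a ∈ {y : ℝ | 0 ≤ y} from ha.le)
      (show b ∈ {y : ℝ | 0 ≤ y} from hb.le) h)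
  have h1 := (strictConvexOn_rpow hq).2 (Set.mem_Ici.2 hx.le) (Set.mem_Ici.2 hy.le) hxy
    (sub_pos.2 ht1) ht0 (by ring)
  simp only [smul_eq_mul] at h1
  rw [← Real.rpow_mul ha.le, ← Real.rpow_mul hb.le, mul_div_cancel₀ _ h0.ne'] at h1
  have hz : 0 < (1 - t) * a ^ p0 + t * b ^ p0 := by
    have := mul_pos (sub_pos.2 ht1) hx
    have := mul_pos ht0 hy
    linarith
  unfold mp
  have h2 : ((1 - t) * a ^ p0 + t * b ^ p0) ^ (1 / p0)
      = (((1 - t) * a ^ p0 + t * b ^ p0) ^ (p / p0)) ^ (1 / p) := by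
    rw [← Real.rpow_mul hz.le]
    congr 1
    field_simp
  rw [h2]
  exact Real.rpow_lt_rpow (Real.rpow_nonneg hz.le _) h1 (by positivity)

theorem mp_le {p0 p t a b : ℝ} (h0 : 0 < p0) (hp : p0 < p) (ht0 : 0 < t) (ht1 : t < 1)
    (ha : 0 < a) (hb : 0 < b) : mp p0 t a b ≤ mp p t a b := by
  by_cases hab : a = b
  · subst hab
    rw [mp_self h0 ha, mp_self (h0.trans hp) ha]
  · exact (mp_lt h0 hp ht0 ht1 ha hb hab).le

theorem mp_pos {p t a b : ℝ} (ht0 : 0 < t) (ht1 : t < 1)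
    (ha : 0 < a) (hb : 0 < b) : 0 < mp p t a b := by
  unfold mp
  have hx : 0 < a ^ p := Real.rpow_pos_of_pos ha _
  have hy : 0 < b ^ p := Real.rpow_pos_of_pos hb _
  have := mul_pos (sub_pos.2 ht1) hx
  have := mul_pos ht0 hy
  exact Real.rpow_pos_of_pos (by linarith) _

theorem mp_cont {n : ℕ} {p t : ℝ} (hp : 0 < p) (f g : E n → ℝ) (hf : Continuous f)
    (hg : Continuous g) : Continuous (fun u => mp p t (f u) (g u)) := by
  unfold mp
  have h1 : Continuous (fun u => f u ^ p) := hf.rpow_const (fun _ => Or.inr hp.le)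
  have h2 : Continuous (fun u => g u ^ p) := hg.rpow_const (fun _ => Or.inr hp.le)
  exact ((continuous_const.mul h1).add (continuous_const.mul h2)).rpow_const
    (fun _ => Or.inr (by positivity))

theorem inner_le {n : ℕ} (x u : E n) (hu : u ∈ Metric.sphere (0 : E n) 1) :
    inner ℝ x u ≤ ‖x‖ := by
  have h1 : ‖u‖ = 1 := by simpa using hu
  have := real_inner_le_norm x u
  rwa [h1, mul_one] at this

theorem wulff_closed {n : ℕ} (M : E n → ℝ) : IsClosed (Wulff M) := by
  have : Wulff M = ⋂ u ∈ Metric.sphere (0 : E n) 1, {x : E n | inner ℝ x u ≤ M u} := by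
    ext x
    simp [Wulff]
  rw [this]
  exact isClosed_biInter (fun u _ => isClosed_le (continuous_id.inner continuous_const)
    continuous_const)

theorem wulff_convex {n : ℕ} (M : E n → ℝ) : Convex ℝ (Wulff M) := by
  intro x hx y hy a b ha hb hab u hu
  rw [inner_add_left, real_inner_smul_left, real_inner_smul_left]
  have h1 := mul_le_mul_of_nonneg_left (hx u hu) ha
  have h2 := mul_le_mul_of_nonneg_left (hy u hu) hb
  have h3 : a * M u + b * M u = M u := by rw [← add_mul, hab, one_mul]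
  linarith

theorem wulff_ball {n : ℕ} (M : E n → ℝ) (x : E n) (δ : ℝ)
    (h : ∀ u ∈ Metric.sphere (0 : E n) 1, inner ℝ x u + δ ≤ M u) :
    Metric.ball x δ ⊆ Wulff M := by
  intro y hy u hu
  have h1 : ‖y - x‖ < δ := by rwa [← dist_eq_norm]
  have h2 := inner_le (y - x) u hu
  rw [inner_sub_left] at h2
  have h3 := h u hu
  linarith

theorem sphere_nonempty {n : ℕ} (hn : 1 ≤ n) : (Metric.sphere (0 : E n) 1).Nonempty := by
  refine ⟨EuclideanSpace.single ⟨0, hn⟩ (1 : ℝ), ?_⟩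
  simp

theorem wulff_zero {n : ℕ} (hn : 1 ≤ n) (M : E n → ℝ) (hM : Continuous M)
    (hpos : ∀ u ∈ Metric.sphere (0 : E n) 1, 0 < M u) : (0 : E n) ∈ interior (Wulff M) := by
  obtain ⟨u0, hu0, hmin⟩ := (isCompact_sphere (0 : E n) 1).exists_isMinOn (sphere_nonempty hn)
    hM.continuousOn
  rw [mem_interior]
  refine ⟨Metric.ball 0 (M u0), wulff_ball M 0 (M u0) (fun u hu => ?_), Metric.isOpen_ball,
    Metric.mem_ball_self (hpos u0 hu0)⟩
  rw [inner_zero_left, zero_add]
  exact hmin hu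

theorem wulff_fin {n : ℕ} (hn : 1 ≤ n) (M : E n → ℝ) (hM : Continuous M) :
    volume (Wulff M) ≠ ⊤ := by
  obtain ⟨u0, hu0, hmax⟩ := (isCompact_sphere (0 : E n) 1).exists_isMaxOn (sphere_nonempty hn)
    hM.continuousOn
  have hsub : Wulff M ⊆ Metric.closedBall 0 (max (M u0) 0) := by
    intro x hx
    rw [mem_closedBall_zero_iff]
    by_cases h0 : x = 0
    · subst h0
      simp
    · have hn0 : 0 < ‖x‖ := norm_pos_iff.2 h0
      have hu : (‖x‖⁻¹ • x) ∈ Metric.sphere (0 : E n) 1 := by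
        rw [mem_sphere_zero_iff_norm, norm_smul, norm_inv, norm_norm, inv_mul_cancel₀ hn0.ne']
      have h1 := hx _ hu
      rw [real_inner_smul_right, real_inner_self_eq_norm_sq] at h1
      have h2 : ‖x‖⁻¹ * ‖x‖ ^ 2 = ‖x‖ := by
        field_simp
      rw [h2] at h1
      have h3 : M (‖x‖⁻¹ • x) ≤ M u0 := hmax hu
      exact (h1.trans h3).trans (le_max_left _ _)
  exact ne_top_of_le_ne_top (measure_closedBall_lt_top).ne (measure_mono hsub)

theorem wulff_frontier {n : ℕ} (hn : 1 ≤ n) (M : E n → ℝ) (hM : Continuous M) (x : E n)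
    (hx : x ∈ frontier (Wulff M)) : ∃ u ∈ Metric.sphere (0 : E n) 1, inner ℝ x u = M u := by
  by_contra hcon
  push Not at hcon
  have hxW : x ∈ Wulff M := (wulff_closed M).frontier_subset hx
  have hc : Continuous (fun u : E n => M u - inner ℝ x u) :=
    hM.sub (continuous_const.inner continuous_id)
  obtain ⟨u0, hu0, hmin⟩ := (isCompact_sphere (0 : E n) 1).exists_isMinOn (sphere_nonempty hn)
    hc.continuousOn
  have hδ : 0 < M u0 - inner ℝ x u0 := by
    have h1 := hxW u0 hu0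
    have h2 := hcon u0 hu0
    have h3 := lt_of_le_of_ne h1 h2
    linarith
  have hsub := wulff_ball M x (M u0 - inner ℝ x u0) (fun u hu => by
    have := hmin hu
    simp only [Set.mem_setOf_eq] at this
    linarith)
  have hint : x ∈ interior (Wulff M) := by
    rw [mem_interior]
    exact ⟨_, hsub, Metric.isOpen_ball, Metric.mem_ball_self hδ⟩
  exact hx.2 hint

/-- if every frontier point of `W` lies on a support hyperplane of `K` then `K ⊆ W` -/
theorem sub_of_frontier {n : ℕ} (K W : Set (E n)) (hW : IsClosed W) (h0 : (0 : E n) ∈ interior W)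
    (hK : ∀ y ∈ K, ∀ z ∈ frontier W, ∃ u : E n, inner ℝ y u ≤ supp K u ∧ 0 < supp K u ∧
      inner ℝ z u = supp K u) : K ⊆ W := by
  intro y hy
  by_contra hyW
  have hpre : IsPreconnected (segment ℝ (0 : E n) y) := (convex_segment (0 : E n) y).isPreconnected
  have h1 : (segment ℝ (0 : E n) y ∩ interior W).Nonempty := ⟨0, left_mem_segment ℝ _ _, h0⟩
  have h2 : (segment ℝ (0 : E n) y ∩ Wᶜ).Nonempty := ⟨y, right_mem_segment ℝ _ _, hyW⟩
  have hex : ∃ z, z ∈ segment ℝ (0 : E n) y ∧ z ∈ frontier W := by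
    by_contra hno
    push Not at hno
    obtain ⟨z, -, hz1, hz2⟩ := hpre (interior W) Wᶜ isOpen_interior hW.isOpen_compl (by
      intro z hz
      by_cases hzW : z ∈ W
      · left
        by_contra hzi
        exact hno z hz ⟨subset_closure hzW, hzi⟩
      · exact Or.inr hzW) h1 h2
    exact hz2 (interior_subset hz1)
  obtain ⟨z, hz, hzf⟩ := hex
  obtain ⟨a, s, ha, hs, has, hzs⟩ := hz
  rw [smul_zero, zero_add] at hzs
  obtain ⟨u, hu1, hu2, hu3⟩ := hK y hy z hzf
  rw [← hzs, real_inner_smul_left] at hu3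
  have hs1 : s ≤ 1 := by linarith
  have hsne : s ≠ 1 := by
    intro h
    rw [h, one_smul] at hzs
    exact hyW (hzs ▸ hW.frontier_subset hzf)
  have hs1' : s < 1 := lt_of_le_of_ne hs1 hsne
  have hspos : 0 < s := by
    rcases hs.eq_or_lt with h | h
    · rw [← h, zero_mul] at hu3
      linarith
    · exact h
  have : s * inner ℝ y u ≤ s * supp K u := mul_le_mul_of_nonneg_left hu1 hs
  nlinarith

theorem stmt_EQL (hG : Stmt_GEN) (hC : Stmt_CEN) : Stmt_EQL := by
  intro n p K C hn hp0 hp1 hpn hK hCb hvol t ht hWvol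
  have hn1 : 1 ≤ n := by omega
  have hnR : (2 : ℝ) ≤ n := by exact_mod_cast hn
  have hn4 : (16 : ℝ) ≤ (n : ℝ) ^ 4 := by
    have := pow_le_pow_left₀ (by norm_num : (0 : ℝ) ≤ 2) hnR 4
    norm_num at this
    exact this
  have hn4p : (0 : ℝ) < 11 * (n : ℝ) ^ 4 := by linarith
  obtain ⟨ht0, ht1⟩ := ht
  set p0 : ℝ := 1 - 2 / (11 * (n : ℝ) ^ 4) with hp0def
  have hd1 : 2 / (11 * (n : ℝ) ^ 4) < 1 := by
    rw [div_lt_one hn4p]
    linarith
  have hp0pos : 0 < p0 := by
    rw [hp0def]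
    linarith
  have hdp : 0 < 2 / (11 * (n : ℝ) ^ 4) := by positivity
  have hp0lt1 : p0 < 1 := by
    rw [hp0def]
    linarith
  have hp0p : p0 < p := by
    have h1 : (1 - p) < 2 / (11 * (n : ℝ) ^ 4) := by
      rw [lt_div_iff₀ hn4p]
      nlinarith
    rw [hp0def]
    linarith
  have hp0n : (1 - p0) * (11 * (n : ℝ) ^ 4) ≤ 2 := by
    have : (1 - p0) = 2 / (11 * (n : ℝ) ^ 4) := by rw [hp0def]; ring
    rw [this, div_mul_cancel₀ _ hn4p.ne']
  obtain ⟨hK0, hKpos, hKc, -, hKle, hKmem⟩ := hC n K hn1 hK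
  obtain ⟨hC0, hCpos, hCc, -, hCle, hCmem⟩ := hC n C hn1 hCb
  have hsne : ∀ u ∈ Metric.sphere (0 : E n) 1, u ≠ 0 := by
    intro u hu h
    rw [h] at hu
    simp at hu
  set M0 : E n → ℝ := fun u => mp p0 t (supp K u) (supp C u) with hM0
  set M1 : E n → ℝ := fun u => mp p t (supp K u) (supp C u) with hM1
  have hM0c : Continuous M0 := mp_cont hp0pos _ _ hKc hCc
  have hM1c : Continuous M1 := mp_cont hp0 _ _ hKc hCc
  have hM0pos : ∀ u ∈ Metric.sphere (0 : E n) 1, 0 < M0 u := fun u hu =>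
    mp_pos ht0 ht1 (hKpos u (hsne u hu)) (hCpos u (hsne u hu))
  have hM1pos : ∀ u ∈ Metric.sphere (0 : E n) 1, 0 < M1 u := fun u hu =>
    mp_pos ht0 ht1 (hKpos u (hsne u hu)) (hCpos u (hsne u hu))
  have hle : ∀ u ∈ Metric.sphere (0 : E n) 1, M0 u ≤ M1 u := fun u hu =>
    mp_le hp0pos hp0p ht0 ht1 (hKpos u (hsne u hu)) (hCpos u (hsne u hu))
  have hsub : Wulff M0 ⊆ Wulff M1 := fun x hx u hu => (hx u hu).trans (hle u hu)
  have hgen := hG n p0 K C hn hp0pos hp0lt1 hp0n hK hCb t ⟨ht0.le, ht1.le⟩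
  have hVnn : 0 ≤ (volume K).toReal := ENNReal.toReal_nonneg
  have hKfin : volume K ≠ ⊤ := hK.2.1.measure_lt_top.ne
  have hCfin : volume C ≠ ⊤ := hCb.2.1.measure_lt_top.ne
  have hVpos : 0 < (volume K).toReal := by
    apply ENNReal.toReal_pos _ hKfin
    have h1 : 0 < volume (interior K) := isOpen_interior.measure_pos volume hK.2.2.1
    exact (h1.trans_le (measure_mono interior_subset)).ne'
  rw [← hvol, ← Real.rpow_add hVpos, sub_add_cancel, Real.rpow_one] at hgen
  have hWf : volume (Wulff M1) ≠ ⊤ := wulff_fin hn1 M1 hM1c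
  have hWeq : Wulff M0 = Wulff M1 := by
    apply eq_of_vol hsub (wulff_closed M0) (wulff_convex M1) ⟨0, wulff_zero hn1 M1 hM1c hM1pos⟩ hWf
    rw [hWvol]
    exact hgen
  -- frontier points
  have hfr : ∀ z ∈ frontier (Wulff M1), ∃ u ∈ Metric.sphere (0 : E n) 1,
      inner ℝ z u = supp K u ∧ supp K u = supp C u := by
    intro z hz
    obtain ⟨u, hu, hzu⟩ := wulff_frontier hn1 M1 hM1c z hz
    have hzW : z ∈ Wulff M0 := by
      rw [hWeq]
      exact (wulff_closed M1).frontier_subset hz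
    have h1 : M1 u ≤ M0 u := by
      rw [← hzu]
      exact hzW u hu
    have hab : supp K u = supp C u := by
      by_contra hne
      have := mp_lt hp0pos hp0p ht0 ht1 (hKpos u (hsne u hu)) (hCpos u (hsne u hu)) hne
      exact absurd h1 (not_le.2 this)
    refine ⟨u, hu, ?_, hab⟩
    rw [hzu]
    show mp p t (supp K u) (supp C u) = supp K u
    rw [← hab]
    exact mp_self hp0 (hKpos u (hsne u hu))
  have h0W : (0 : E n) ∈ interior (Wulff M1) := wulff_zero hn1 M1 hM1c hM1pos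
  have hKW : K ⊆ Wulff M1 := by
    apply sub_of_frontier K (Wulff M1) (wulff_closed M1) h0W
    intro y hy z hz
    obtain ⟨u, hu, h1, h2⟩ := hfr z hz
    exact ⟨u, hKle u y hy, hKpos u (hsne u hu), h1⟩
  have hCW : C ⊆ Wulff M1 := by
    apply sub_of_frontier C (Wulff M1) (wulff_closed M1) h0W
    intro y hy z hz
    obtain ⟨u, hu, h1, h2⟩ := hfr z hz
    exact ⟨u, hCle u y hy, hCpos u (hsne u hu), h1.trans h2⟩
  have e1 : K = Wulff M1 := eq_of_vol hKW hK.2.1.isClosed (wulff_convex M1)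
    ⟨0, wulff_zero hn1 M1 hM1c hM1pos⟩ hWf (by rw [hWvol])
  have e2 : C = Wulff M1 := eq_of_vol hCW hCb.2.1.isClosed (wulff_convex M1)
    ⟨0, wulff_zero hn1 M1 hM1c hM1pos⟩ hWf (by rw [hWvol, hvol])
  rw [e1, ← e2]

end Pool.Agent.Work.LPBM.helper68
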