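import Pool.Agent.Work.MP_b5407d_lp.Interface

set_option autoImplicit false
open MeasureTheory Real Filter Topology
open scoped Pointwise

namespace Pool.Agent.Work.LPBM.helper68

theorem smul_supp {n : ℕ} (K : Set (E n)) {s : ℝ} (hs : 0 < s) (u : E n) :
    supp (s • K) u = s * supp K u := by
  unfold supp
  have h : (fun y : E n => inner ℝ y u) '' (s • K) = s • ((fun y : E n => inner ℝ y u) '' K) := by
    ext r
    constructor
    · rintro ⟨y, ⟨x, hx, rfl⟩, rfl⟩
      refine ⟨inner ℝ x u, ⟨x, hx, rfl⟩, ?_⟩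
      simp [real_inner_smul_left]
    · rintro ⟨q, ⟨x, hx, rfl⟩, rfl⟩
      refine ⟨s • x, ⟨x, hx, rfl⟩, ?_⟩
      simp [real_inner_smul_left]
  rw [h, Real.sSup_smul_of_nonneg hs.le, smul_eq_mul]

theorem smul_vol {n : ℕ} (K : Set (E n)) {s : ℝ} (hs : 0 < s) :
    (volume (s • K)).toReal = s ^ n * (volume K).toReal := by
  rw [Measure.addHaar_smul, ENNReal.toReal_mul]
  congr 1
  rw [finrank_euclideanSpace_fin, abs_of_pos (pow_pos hs n),
    ENNReal.toReal_ofReal (pow_pos hs n).le]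

theorem smul_body {n : ℕ} {K : Set (E n)} (hK : CBody K) {s : ℝ} (hs : 0 < s) :
    CBody (s • K) := by
  obtain ⟨h1, h2, h3, h4⟩ := hK
  refine ⟨h1.smul s, h2.smul s, ?_, ?_⟩
  · rw [interior_smul₀ hs.ne']
    exact h3.smul_set
  · have h5 := Measure.setIntegral_comp_smul (volume : Measure (E n)) (fun x : E n => x)
      (s := K) (R := s) hs.ne'
    have h6 : ∫ x in K, s • x = s • ∫ x in K, x := integral_smul _ _
    rw [h6, h4, smul_zero] at h5
    have h7 : |(s ^ Module.finrank ℝ (E n))⁻¹| ≠ 0 := by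
      rw [abs_ne_zero]
      exact inv_ne_zero (pow_ne_zero _ hs.ne')
    exact (smul_eq_zero.1 h5.symm).resolve_left h7

theorem wulff_smul {n : ℕ} (M : E n → ℝ) {c : ℝ} (hc : 0 < c) :
    Wulff (fun u => c * M u) = c • Wulff M := by
  ext x
  rw [Set.mem_smul_set_iff_inv_smul_mem₀ hc.ne']
  constructor
  · intro h u hu
    rw [real_inner_smul_left]
    have := h u hu
    rw [inv_mul_le_iff₀ hc]
    exact this
  · intro h u hu
    have := h u hu
    rw [real_inner_smul_left, inv_mul_le_iff₀ hc] at this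
    exact this

theorem wulff_congr {n : ℕ} (M M' : E n → ℝ) (h : ∀ u ∈ Metric.sphere (0 : E n) 1, M u = M' u) :
    Wulff M = Wulff M' := by
  ext x
  constructor
  · intro hx u hu
    rw [← h u hu]
    exact hx u hu
  · intro hx u hu
    rw [h u hu]
    exact hx u hu

theorem mp_self' {p t a : ℝ} (hp : 0 < p) (ha : 0 < a) : mp p t a a = a := by
  unfold mp
  have h : (1 - t) * a ^ p + t * a ^ p = a ^ p := by ring
  rw [h, ← Real.rpow_mul ha.le, mul_one_div_cancel hp.ne', Real.rpow_one]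

theorem body_pos {n : ℕ} {K : Set (E n)} (hK : CBody K) : 0 < (volume K).toReal := by
  apply ENNReal.toReal_pos _ hK.2.1.measure_lt_top.ne
  have h1 : 0 < volume (interior K) := isOpen_interior.measure_pos volume hK.2.2.1
  exact (h1.trans_le (measure_mono interior_subset)).ne'

/-- the volume radius -/
theorem root {n : ℕ} (hn : 1 ≤ n) {V p : ℝ} (hV : 0 < V) :
    0 < V ^ (1 / (n : ℝ)) ∧ (V ^ (1 / (n : ℝ))) ^ n = V ∧
      V ^ (p / (n : ℝ)) = (V ^ (1 / (n : ℝ))) ^ p := by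
  have hn0 : (n : ℝ) ≠ 0 := by
    have : (1 : ℝ) ≤ n := by exact_mod_cast hn
    linarith
  refine ⟨Real.rpow_pos_of_pos hV _, ?_, ?_⟩
  · rw [← Real.rpow_natCast, ← Real.rpow_mul hV.le, one_div_mul_cancel hn0, Real.rpow_one]
  · rw [← Real.rpow_mul hV.le]
    congr 1
    ring

theorem stmt_FIN (hG : Stmt_GEN) (hC : Stmt_CEN) (hE : Stmt_EQL) : Stmt_FIN := by
  intro n hn p hp0 hp1 hpn K C hK1 hK2 hK3 hC1 hC2 hC3 hK4 hC4 α β hα hβ
  have hKb : CBody K := ⟨hK1, hK2, hK3, hK4⟩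
  have hCb : CBody C := ⟨hC1, hC2, hC3, hC4⟩
  have hn1 : 1 ≤ n := by omega
  have hnR : (2 : ℝ) ≤ n := by exact_mod_cast hn
  have hn0 : (n : ℝ) ≠ 0 := by linarith
  have hVK := body_pos hKb
  have hVC := body_pos hCb
  obtain ⟨hl, hln, hlp⟩ := root (p := p) hn1 hVK
  obtain ⟨hm, hmn, hmp⟩ := root (p := p) hn1 hVC
  set lam : ℝ := (volume K).toReal ^ (1 / (n : ℝ)) with hlam
  set mu : ℝ := (volume C).toReal ^ (1 / (n : ℝ)) with hmu
  have hli : 0 < lam⁻¹ := inv_pos.2 hl
  have hmi : 0 < mu⁻¹ := inv_pos.2 hm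
  set K1 : Set (E n) := lam⁻¹ • K with hK1def
  set C1 : Set (E n) := mu⁻¹ • C with hC1def
  have hK1b : CBody K1 := smul_body hKb hli
  have hC1b : CBody C1 := smul_body hCb hmi
  have hK1v : (volume K1).toReal = 1 := by
    rw [hK1def, smul_vol K hli, ← hln, inv_pow, inv_mul_cancel₀ (pow_ne_zero _ hl.ne')]
  have hC1v : (volume C1).toReal = 1 := by
    rw [hC1def, smul_vol C hmi, ← hmn, inv_pow, inv_mul_cancel₀ (pow_ne_zero _ hm.ne')]
  have hKs : ∀ u, supp K u = lam * supp K1 u := by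
    intro u
    rw [hK1def, smul_supp K hli, mul_inv_cancel_left₀ hl.ne']
  have hCs : ∀ u, supp C u = mu * supp C1 u := by
    intro u
    rw [hC1def, smul_supp C hmi, mul_inv_cancel_left₀ hm.ne']
  obtain ⟨-, hKpos, -, -, hKle, hKmem⟩ := hC n K1 hn1 hK1b
  obtain ⟨-, hCpos, -, -, hCle, hCmem⟩ := hC n C1 hn1 hC1b
  have hsne : ∀ u ∈ Metric.sphere (0 : E n) 1, u ≠ 0 := by
    intro u hu h
    rw [h] at hu
    simp at hu
  have hlpp : 0 < lam ^ p := Real.rpow_pos_of_pos hl _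
  have hmpp : 0 < mu ^ p := Real.rpow_pos_of_pos hm _
  set sg : ℝ := α * lam ^ p + β * mu ^ p with hsg
  have hsgp : 0 < sg := by
    have := mul_pos hα hlpp
    have := mul_pos hβ hmpp
    linarith
  set t : ℝ := β * mu ^ p / sg with ht
  have ht0 : 0 < t := div_pos (mul_pos hβ hmpp) hsgp
  have ht1 : t < 1 := by
    rw [ht, div_lt_one hsgp, hsg]
    have := mul_pos hα hlpp
    linarith
  have hsgt : sg * t = β * mu ^ p := by
    rw [ht, mul_div_cancel₀ _ hsgp.ne']
  have hsgt' : sg * (1 - t) = α * lam ^ p := by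
    rw [mul_sub, hsgt, hsg]
    ring
  set c : ℝ := sg ^ (1 / p) with hc
  have hcp : 0 < c := Real.rpow_pos_of_pos hsgp _
  set M : E n → ℝ := fun u => mp p t (supp K1 u) (supp C1 u) with hM
  have hset : {x : EuclideanSpace ℝ (Fin n) |
              ∀ u ∈ Metric.sphere (0 : EuclideanSpace ℝ (Fin n)) 1,
                inner ℝ x u ≤ (α * (sSup ((fun y : EuclideanSpace ℝ (Fin n) => inner ℝ y u) '' K)) ^ p
                    + β * (sSup ((fun y : EuclideanSpace ℝ (Fin n) => inner ℝ y u) '' C)) ^ p) ^ (1 / p)}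
      = c • Wulff M := by
    rw [← wulff_smul M hcp]
    apply wulff_congr (fun u => (α * (supp K u) ^ p + β * (supp C u) ^ p) ^ (1 / p))
    intro u hu
    have h1 := hKpos u (hsne u hu)
    have h2 := hCpos u (hsne u hu)
    show (α * (supp K u) ^ p + β * (supp C u) ^ p) ^ (1 / p) = c * mp p t (supp K1 u) (supp C1 u)
    have h3 : 0 ≤ (1 - t) * supp K1 u ^ p + t * supp C1 u ^ p := by
      have := mul_pos (sub_pos.2 ht1) (Real.rpow_pos_of_pos h1 p)
      have := mul_pos ht0 (Real.rpow_pos_of_pos h2 p)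
      linarith
    unfold mp
    rw [hc, ← Real.mul_rpow hsgp.le h3, hKs u, hCs u, Real.mul_rpow hl.le h1.le,
      Real.mul_rpow hm.le h2.le]
    congr 1
    rw [mul_add, ← mul_assoc, ← mul_assoc, ← mul_assoc, ← mul_assoc, hsgt, hsgt']
  rw [hset]
  have hWv : (volume (c • Wulff M)).toReal = c ^ n * (volume (Wulff M)).toReal :=
    smul_vol (Wulff M) hcp
  have hWn : 0 ≤ (volume (Wulff M)).toReal := ENNReal.toReal_nonneg
  have hcn : (c ^ n) ^ (p / (n : ℝ)) = sg := by
    rw [← Real.rpow_natCast c n, ← Real.rpow_mul hcp.le, mul_div_cancel₀ _ hn0, hc,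
      ← Real.rpow_mul hsgp.le, one_div_mul_cancel hp0.ne', Real.rpow_one]
  have hW2 : (volume (c • Wulff M)).toReal ^ (p / (n : ℝ))
      = sg * (volume (Wulff M)).toReal ^ (p / (n : ℝ)) := by
    rw [hWv, Real.mul_rpow (pow_nonneg hcp.le n) hWn, hcn]
  have hLHS : α * (volume K).toReal ^ (p / (n : ℝ)) + β * (volume C).toReal ^ (p / (n : ℝ)) = sg := by
    rw [hlp, hmp]
  have hn4 : (16 : ℝ) ≤ (n : ℝ) ^ 4 := by
    have := pow_le_pow_left₀ (by norm_num : (0 : ℝ) ≤ 2) hnR 4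
    norm_num at this
    exact this
  have hgen := hG n p K1 C1 hn hp0 hp1 (by nlinarith) hK1b hC1b t ⟨ht0.le, ht1.le⟩
  rw [hK1v, hC1v, Real.one_rpow, Real.one_rpow, mul_one] at hgen
  have hW1 : 1 ≤ (volume (Wulff M)).toReal := hgen
  have hpn0 : 0 < p / (n : ℝ) := div_pos hp0 (by linarith)
  rw [hW2, hLHS]
  refine ⟨?_, ?_, ?_⟩
  · have : (1 : ℝ) ≤ (volume (Wulff M)).toReal ^ (p / (n : ℝ)) := Real.one_le_rpow hW1 hpn0.le
    nlinarith
  · intro h
    have h1 : (volume (Wulff M)).toReal ^ (p / (n : ℝ)) = 1 := by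
      have : sg * (volume (Wulff M)).toReal ^ (p / (n : ℝ)) = sg * 1 := by rw [h, mul_one]
      exact mul_left_cancel₀ hsgp.ne' this
    have h2 : (volume (Wulff M)).toReal = 1 := by
      rcases hW1.lt_or_eq with h3 | h3
      · have := Real.one_lt_rpow h3 hpn0
        linarith
      · exact h3.symm
    have h3 : K1 = C1 := hE n p K1 C1 hn hp0 hp1 hpn hK1b hC1b (by rw [hK1v, hC1v]) t
      ⟨ht0, ht1⟩ (by rw [hK1v]; exact h2)
    refine ⟨mu * lam⁻¹, mul_pos hm hli, ?_⟩
    show C = (mu * lam⁻¹) • K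
    rw [mul_smul, ← hK1def, h3, hC1def, smul_inv_smul₀ hm.ne']
  · rintro ⟨s, hs, hCK⟩
    have hCK' : C = s • K := hCK
    have hms : mu = s * lam := by
      rw [hmu, hCK', smul_vol K hs, Real.mul_rpow (pow_nonneg hs.le n) ENNReal.toReal_nonneg,
        ← Real.rpow_natCast s n, ← Real.rpow_mul hs.le, mul_one_div_cancel hn0, Real.rpow_one]
    have h1 : C1 = K1 := by
      rw [hC1def, hK1def, hms, hCK', ← mul_smul, mul_inv, mul_comm s⁻¹ lam⁻¹, mul_assoc,
        inv_mul_cancel₀ hs.ne', mul_one]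
    have h2 : Wulff M = K1 := by
      ext x
      constructor
      · intro hx
        apply hKmem
        intro u hu
        have := hx u hu
        rw [hM] at this
        simp only at this
        rw [h1, mp_self' hp0 (hKpos u (hsne u hu))] at this
        exact this
      · intro hx u hu
        show inner ℝ x u ≤ mp p t (supp K1 u) (supp C1 u)
        rw [h1, mp_self' hp0 (hKpos u (hsne u hu))]
        exact hKle u x hx
    rw [h2, hK1v, Real.one_rpow, mul_one]

end Pool.Agent.Work.LPBM.helper68
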